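import Pool.Agent.H88.OW.Dic

/-!
# [H40 OW DICB] MP_b39724_nt, THEOREM OW, S1: a rich configuration without linked tuples belongs to a quasi Lie functional (body of `dic` of H88/OW/Dic)

Proof. `Frw` for `ι = {v ∈ sp Zc f, PPc v}`, `s v` the letter, `χ v = (e (inl v)).1.1`, `Q = Qp kk` (`cen` for the central elements). The image of `Q` in `P` is `Rh` (`ph_hat`);
`(kk w, ph w) ∈ Q` for all words `w`, so `kk w = κ (ph w)`, and `Kx` and `Ff` give the components.
-/

set_option autoImplicit false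

open scoped NumberField commutatorElement
open IsDedekindDomain
open scoped Classical

noncomputable section

namespace H40.OW

open H63.MA H38.BB H38.BG H57.PC H57.BRA H77.WD H77.WE H77.PC3 H35.CF H35.UB H77.S3 H71.S3 H1.S3
  H73.S3 H88.OW

attribute [local instance 50] Fintype.ofFinite

/-- the values of the crossed homomorphism are in the group of the values -/
theorem kk_qp {S P : Type} [Group S] [Group P] [MulDistribMulAction P S] {J V : Type} {q m : ℕ}
    (X : AD S P J V) (k : FreeGroup J → Du S q (m + 1)) (hk : X.CHp k) (w : FreeGroup J) :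
    (⟨k w, X.ph w⟩ : Sd P (Du S q (m + 1))) ∈ X.Qp k := by
  have one : k 1 = 0 := by
    have h1 := hk 1 1
    rw [mul_one, map_one, one_smul] at h1
    exact left_eq_add.1 h1
  have inv : ∀ a, k a⁻¹ = -(X.ph a⁻¹ • k a) := by
    intro a
    have h1 := hk a⁻¹ a
    rw [inv_mul_cancel, one] at h1
    exact eq_neg_of_add_eq_zero_left h1.symm
  refine FreeGroup.induction_on w ?_ ?_ ?_ ?_
  · rw [one, map_one]
    exact one_mem _
  · intro j
    exact Subgroup.subset_closure ⟨j, rfl⟩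
  · intro j hj
    rw [inv, map_inv]
    exact inv_mem hj
  · intro a b ha hb
    rw [hk, map_mul]
    exact mul_mem ha hb

variable {K : Type} [Field K] [NumberField K] {Ω : Type} [Field Ω] [Algebra K Ω]
  {p N : ℕ} {ζ : K} {D : RD0 K p ζ} {Q : DP K Ω} {A : GS D Ω} {P : Type} [Group P]
  {c : CL p N P} {S : Type} [Group S] [MulDistribMulAction P S] {q m ep : ℕ}

/-- the image in `P` of the group of the values is `Rh` -/
theorem qp_map (G : SG c S) (B : SD D Q A) (X : FD A P S) (W : WF A) (T : ℝ) (Zc : Finset (Pl K)) (hXo : X.Ok G B W)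
    (f : Pl K → Option (Px c)) (k : FW A → Du S q (m + 1)) (hk : (adf G B X W T Zc f).CHp k) :
    ((adf G B X W T Zc f).Qp k).map (Sd.pr (F := P) (N := Du S q (m + 1))) = Rh X W := by
  unfold Rh
  rw [← ph_hat G B X W hXo T Zc f]
  refine le_antisymm ?_ ?_
  · unfold AD.Qp
    rw [Subgroup.map_le_iff_le_comap, Subgroup.closure_le]
    rintro u ⟨j, rfl⟩
    exact ⟨FreeGroup.of j, rfl⟩
  · rintro g ⟨w, rfl⟩
    exact ⟨_, kk_qp _ k hk w, rfl⟩

/-- THEOREM: a rich configuration without linked tuples belongs to a quasi Lie functional -/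
theorem dic [Fintype S] [Fintype P] [NeZero q] (hp : p.Prime) (G : SG c S) (B : SD D Q A)
    (X : FD A P S) (W : WF A) {k Mw c₀ : ℕ} (T : ℝ) (Zc : Finset (Pl K))
    (hZE : Disjoint Zc X.E) (hXo : X.Ok G B W) (hm : 1 ≤ m) (hF : Frw G q m ep) (M : ℕ)
    (hM : m + 2 ≤ M) (f : Pl K → Option (Px c)) (hr : Rich X W T Zc M f)
    (hok : (adf G B X W T Zc f).Ok p k Mw q c₀ G.Pi) (e : Pl K ⊕ Fin A.g → El S P q m)
    (hff : (adf G B X W T Zc f).Ff ((adf G B X W T Zc f).et e)) (τ : Pl K → S)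
    (x : Pl K ⊕ Fin A.g → SP S P)
    (hx : ∀ j ∈ (adf G B X W T Zc f).Jf,
      (x j).right = (adf G B X W T Zc f).ph ((adf G B X W T Zc f).W j))
    (hH : (adf G B X W T Zc f).Hh m τ x ((adf G B X W T Zc f).et e) ≠ 0)
    (hU : ∀ v : Fin (m + 1) → Pl K, Function.Injective v →
      (∀ k, v k ∈ sp Zc f ∧ PPc X W T (v k)) →
      Ulk ((adf G B X W T Zc f).Qp ((adf G B X W T Zc f).kk ((adf G B X W T Zc f).et e)))
        (fun k => (adf G B X W T Zc f).y (Sum.inl (v k))) fun k => (e (Sum.inl (v k))).1.1) :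
    ∃ x : (Px c → Du S q m) × (P → Du S q (m + 1)), x ∈ QBs q m G X W ep ∧
      (adf G B X W T Zc f).et e = etX G B X W T Zc f x := by
  -- the letters
  have hs : ∀ v : {v : Pl K // v ∈ sp Zc f ∧ PPc X W T v}, ∃ a : Px c, f v.1 = some a :=
    fun v => Option.ne_none_iff_exists'.1 (mem_sp.1 v.2.1).2
  choose a ha using hs
  have hy : ∀ v : {v : Pl K // v ∈ sp Zc f ∧ PPc X W T v},
      (adf G B X W T Zc f).y (Sum.inl v.1) = G.y (a v) := by
    intro v
    have h1 : v.1 ∈ Zc := (mem_sp.1 v.2.1).1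
    have h2 : v.1 ∉ X.E := Finset.disjoint_left.1 hZE h1
    unfold AD.y
    simp only [adf, Sum.elim_inl, if_neg h2, if_pos h1, ha, Option.elim]
    rfl
  have hJ : ∀ v : {v : Pl K // v ∈ sp Zc f ∧ PPc X W T v},
      (Sum.inl v.1 : Pl K ⊕ Fin A.g) ∈ (adf G B X W T Zc f).Jf := by
    intro v
    show (Sum.inl v.1 : Pl K ⊕ Fin A.g) ∈ (sp Zc f ∪ X.E).disjSum Finset.univ
    rw [Finset.inl_mem_disjSum, Finset.mem_union]
    exact Or.inl v.2.1
  have hkx := (hk_iff (adf G B X W T Zc f) hp hok m ((adf G B X W T Zc f).et e)).1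
  obtain ⟨x', κ, hQX, hχ, hκ⟩ := hF {v : Pl K // v ∈ sp Zc f ∧ PPc X W T v} a
    (fun v => (e (Sum.inl v.1)).1.1)
    ((adf G B X W T Zc f).Qp ((adf G B X W T Zc f).kk ((adf G B X W T Zc f).et e)))
    (by
      intro b F hFc
      have h1 : (F.image Subtype.val).card <
          (Zc.filter fun v => f v = some b ∧ PPc X W T v).card := by
        have h2 := hr b
        have h3 : (F.image Subtype.val).card ≤ F.card := Finset.card_image_le
        omega
      obtain ⟨v, hv1, hv2⟩ := Finset.exists_mem_notMem_of_card_lt_card h1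
      rw [Finset.mem_filter] at hv1
      obtain ⟨hv3, hv4, hv5⟩ := hv1
      have hv6 : v ∈ sp Zc f := by
        rw [mem_sp]
        refine ⟨hv3, ?_⟩
        rw [hv4]
        exact Option.some_ne_none _
      refine ⟨⟨v, hv6, hv5⟩, fun h => hv2 (Finset.mem_image.2 ⟨_, h, rfl⟩), ?_⟩
      have h4 := ha ⟨v, hv6, hv5⟩
      rw [hv4] at h4
      exact (Option.some.inj h4).symm)
    (by
      intro v z hz hzc hzp
      refine cen _ hok m hm τ x hx _ ⟨Sum.inl v.1, hJ v⟩ v.2 z hz hzc ?_ hH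
      rw [SG.Pi_mk]
      show G.pi z * (1 : P) = 1
      rw [hzp, mul_one])
    (by
      intro D' hD'
      have h2 := hU (fun k => (D' k).1) (fun i j hij => hD' (Subtype.ext hij)) fun k => (D' k).2
      simp only [hy] at h2
      exact h2)
  rw [qp_map G B X W T Zc hXo f _ hkx.ch] at hQX
  have hkk : (adf G B X W T Zc f).kk ((adf G B X W T Zc f).et e) =
      fun w => κ ((adf G B X W T Zc f).ph w) :=
    funext fun w => hκ _ (kk_qp _ _ hkx.ch w)
  refine ⟨(x', κ), Finset.mem_filter.2 ⟨Finset.mem_univ _, hQX⟩, ?_⟩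
  funext j
  have h1 := hff j
  unfold etX AD.eX
  by_cases hj : (adf G B X W T Zc f).pp j
  · rw [if_pos hj] at h1 ⊢
    obtain ⟨v | i, hj'⟩ := j
    · refine Prod.ext ?_ h1
      have h2 := hχ ⟨v, hj⟩
      show (e (Sum.inl v)).1.1 = (f v).elim 0 x'
      rw [ha ⟨v, hj⟩]
      exact h2
    · exact absurd hj not_false
  · rw [if_neg hj] at h1 ⊢
    refine Prod.ext h1 ?_
    have h2 := hkx.ze j hj
    rw [hkk] at h2
    exact h2.symm

end H40.OW
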